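import Mathlib

set_option autoImplicit false

namespace Pool.Agent.H101Z.MRD

open Polynomial

/-- exponents reachable by the reduction steps -/
inductive Reach (s : ℕ) (U : Finset ℕ) : ℕ → ℕ → Prop
  | base (n : ℕ) : n < s → Reach s U n n
  | step (n t i : ℕ) : s ≤ n → t ∈ U → Reach s U (n - s + t) i → Reach s U n i

/-- the combinatorial condition on the set of exponents -/
def Nice (T : Finset ℕ) : Prop :=
  ∃ (U : Finset ℕ) (s d i₀ : ℕ), T = insert d (insert s U) ∧ 0 ∈ U ∧ (∀ t ∈ U, t < s) ∧ s < d ∧
    i₀ < s ∧ i₀ ∉ U ∧ Reach s U d i₀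

theorem reach_down {s u i : ℕ} {U : Finset ℕ} (hu : u ∈ U) (hus : u < s) (n : ℕ)
    (hn : u ≤ n) (h : Reach s U n i) (k : ℕ) : Reach s U (n + k * (s - u)) i := by
  induction k with
  | zero => simpa using h
  | succ k ih =>
    have e : (k + 1) * (s - u) = k * (s - u) + (s - u) := by ring
    refine Reach.step _ u i (by omega) hu ?_
    have : n + (k + 1) * (s - u) - s + u = n + k * (s - u) := by omega
    rwa [this]

theorem nice_of {U : Finset ℕ} {s d u : ℕ} (h0 : 0 ∈ U) (hu : u ∈ U) (hmax : ∀ t ∈ U, t ≤ u)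
    (hus : u < s) (hsd : s < d)
    (h : ¬ (s - u) ∣ (d - s) ∨ ∃ t ∈ U, t + (s - u) ∉ insert s U) :
    Nice (insert d (insert s U)) := by
  have hU : ∀ t ∈ U, t < s := fun t ht => (hmax t ht).trans_lt hus
  by_cases hd : (s - u) ∣ (d - s)
  · obtain ⟨t, ht, ht'⟩ := h.resolve_left (not_not.mpr hd)
    rw [Finset.mem_insert, not_or] at ht'
    have h1 := hmax t ht
    obtain ⟨k, hk⟩ := hd
    obtain ⟨k, rfl⟩ : ∃ k', k = k' + 1 := by
      refine ⟨k - 1, ?_⟩
      rcases k with _ | k
      · omega
      · omega
    refine ⟨U, s, d, t + (s - u), rfl, h0, hU, hsd, by omega, ht'.2, ?_⟩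
    have h2 : Reach s U (s + (s - u)) (t + (s - u)) := by
      refine Reach.step _ t _ (by omega) ht ?_
      have : s + (s - u) - s + t = t + (s - u) := by omega
      rw [this]
      exact Reach.base _ (by omega)
    have h3 := reach_down hu hus _ (by omega) h2 k
    have e : (s - u) * (k + 1) = k * (s - u) + (s - u) := by ring
    have : s + (s - u) + k * (s - u) = d := by omega
    rwa [this] at h3
  · have hpos : 0 < s - u := by omega
    have h1 := Nat.mod_lt (d - s) hpos
    have h2 : (d - s) % (s - u) ≠ 0 := fun h => hd (Nat.dvd_of_mod_eq_zero h)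
    have h3 := Nat.mod_add_div (d - s) (s - u)
    refine ⟨U, s, d, u + (d - s) % (s - u), rfl, h0, hU, hsd, by omega,
      fun h => by have := hmax _ h; omega, ?_⟩
    have h4 := reach_down hu hus (u + (d - s) % (s - u)) (by omega)
      (Reach.base _ (by omega)) ((d - s) / (s - u) + 1)
    have e : ((d - s) / (s - u) + 1) * (s - u) = (s - u) * ((d - s) / (s - u)) + (s - u) := by ring
    have : u + (d - s) % (s - u) + ((d - s) / (s - u) + 1) * (s - u) = d := by omega
    rwa [this] at h4

theorem ap_of {T : Finset ℕ} {g n : ℕ} (hg : 0 < g) (h : ∀ x, x ∈ T ↔ ∃ i, i < n ∧ x = i * g) :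
    ∃ a d : ℕ, T = (Finset.range T.card).image (fun i => a + i * d) := by
  have h1 : T = (Finset.range n).image (fun i => 0 + i * g) := by
    ext x
    simp [h, eq_comm]
  have h2 : T.card = n := by
    rw [h1, Finset.card_image_of_injective _ (fun a b hab => by
      simpa [hg.ne'] using hab), Finset.card_range]
  exact ⟨0, g, by rw [h2]; exact h1⟩

theorem nice_or (T : Finset ℕ) (h0 : 0 ∈ T)
    (hT : ¬ ∃ a d : ℕ, T = (Finset.range T.card).image (fun i => a + i * d)) :
    Nice T ∨ ∃ d, (∀ t ∈ T, t ≤ d) ∧ Nice (T.image (fun t => d - t)) := by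
  classical
  obtain ⟨d, hd, hdmax⟩ := Finset.exists_max_image T id ⟨0, h0⟩
  simp only [id] at hdmax
  have hd0 : 0 < d := by
    by_contra h
    exact hT (ap_of (g := 1) (n := 1) one_pos fun x => ⟨fun hx => ⟨0, one_pos, by
      have := hdmax x hx; omega⟩, fun ⟨i, hi, hx⟩ => by
        have : x = 0 := by omega
        rwa [this]⟩)
  obtain ⟨s, hs, hsmax⟩ := Finset.exists_max_image (T.erase d) id
    ⟨0, Finset.mem_erase.mpr ⟨by omega, h0⟩⟩
  simp only [id, Finset.mem_erase] at hsmax hs
  have hsd : s < d := lt_of_le_of_ne (hdmax s hs.2) hs.1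
  have hs0 : 0 < s := by
    by_contra h
    refine hT (ap_of (g := d) (n := 2) hd0 fun x => ⟨fun hx => ?_, fun ⟨i, hi, hx⟩ => ?_⟩)
    · by_cases hxd : x = d
      · exact ⟨1, by omega, by omega⟩
      · have := hsmax x ⟨hxd, hx⟩
        exact ⟨0, by omega, by omega⟩
    · interval_cases i
      · simpa [hx] using h0
      · simpa [hx] using hd
  obtain ⟨u, hu, humax⟩ := Finset.exists_max_image ((T.erase d).erase s) id
    ⟨0, by simp only [Finset.mem_erase]; exact ⟨by omega, by omega, h0⟩⟩
  simp only [id] at humax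
  set U := (T.erase d).erase s with hU
  have hmem : ∀ x, x ∈ U ↔ x ≠ s ∧ x ≠ d ∧ x ∈ T := fun x => by simp [hU]
  have hus : u < s := by
    have h1 := (hmem u).mp hu
    exact lt_of_le_of_ne (hsmax u h1.2) h1.1
  have hTeq : T = insert d (insert s U) := by
    rw [hU, Finset.insert_erase (Finset.mem_erase.mpr hs), Finset.insert_erase hd]
  have h0U : 0 ∈ U := (hmem 0).mpr ⟨by omega, by omega, h0⟩
  by_cases h : ¬ (s - u) ∣ (d - s) ∨ ∃ t ∈ U, t + (s - u) ∉ insert s U
  · left
    rw [hTeq]
    exact nice_of h0U hu humax hus hsd h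
  · right
    push Not at h
    obtain ⟨hdvd, hcl⟩ := h
    set g := s - u with hg
    have hgpos : 0 < g := by omega
    have hup : ∀ k t, t ∈ insert s U → s - t ≤ k → ∃ j, s = t + j * g := by
      intro k
      induction k with
      | zero =>
        intro t ht h
        rcases Finset.mem_insert.mp ht with rfl | ht
        · exact ⟨0, by simp⟩
        · have := humax t ht; omega
      | succ k ih =>
        intro t ht h
        rcases Finset.mem_insert.mp ht with rfl | ht
        · exact ⟨0, by simp⟩
        · obtain ⟨j, hj⟩ := ih (t + g) (hcl t ht) (by omega)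
          exact ⟨j + 1, by rw [hj]; ring⟩
    obtain ⟨n, hn⟩ := hup s 0 (Finset.mem_insert_of_mem h0U) (by omega)
    rw [zero_add] at hn
    have hall : ∀ i, i ≤ n → i * g ∈ insert s U := by
      intro i
      induction i with
      | zero => intro _; simpa using Or.inr h0U
      | succ i ih =>
        intro hi
        rcases Finset.mem_insert.mp (ih (by omega)) with h1 | h1
        · have : i * g < n * g := Nat.mul_lt_mul_of_pos_right (by omega) hgpos
          omega
        · have := hcl _ h1
          rwa [show i * g + g = (i + 1) * g by ring] at this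
    have hT' : ∀ x, x ∈ insert s U ↔ ∃ i, i ≤ n ∧ x = i * g := by
      intro x
      constructor
      · intro hx
        obtain ⟨j, hj⟩ := hup s x hx (by omega)
        have hjn : j ≤ n := by
          by_contra hc
          have : n * g < j * g := Nat.mul_lt_mul_of_pos_right (by omega) hgpos
          omega
        exact ⟨n - j, by omega, by rw [Nat.sub_mul]; omega⟩
      · rintro ⟨i, hi, rfl⟩
        exact hall i hi
    obtain ⟨k, hk⟩ := hdvd
    have hk1 : k ≠ 1 := by
      rintro rfl
      refine hT (ap_of (g := g) (n := n + 2) hgpos fun x => ?_)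
      rw [hTeq, Finset.mem_insert, hT']
      have e : (n + 1) * g = n * g + g := by ring
      constructor
      · rintro (rfl | ⟨i, hi, rfl⟩)
        · exact ⟨n + 1, by omega, by omega⟩
        · exact ⟨i, by omega, rfl⟩
      · rintro ⟨i, hi, rfl⟩
        by_cases hin : i = n + 1
        · left; rw [hin]; omega
        · right; exact ⟨i, by omega, rfl⟩
    have hk0 : k ≠ 0 := by rintro rfl; omega
    have hk2 : 2 * g ≤ d - s := by
      rw [hk, mul_comm]
      exact Nat.mul_le_mul_left _ (by omega)
    have hn0 : n ≠ 0 := by rintro rfl; omega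
    refine ⟨d, hdmax, ?_⟩
    let U' : Finset ℕ := insert 0 ((Finset.Icc 2 n).image fun i => d - i * g)
    have hle : ∀ i, i ≤ n → i * g ≤ s := fun i hi => by
      rw [hn]; exact Nat.mul_le_mul_right _ hi
    have hTim : T.image (fun t => d - t) = insert d (insert (d - g) U') := by
      ext x
      simp only [Finset.mem_image, Finset.mem_insert, U', Finset.mem_Icc]
      constructor
      · rintro ⟨t, ht, rfl⟩
        rw [hTeq, Finset.mem_insert, hT'] at ht
        rcases ht with rfl | ⟨i, hi, rfl⟩
        · simp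
        · rcases i with _ | _ | i
          · simp
          · simp
          · exact Or.inr (Or.inr (Or.inr ⟨i + 1 + 1, ⟨by omega, hi⟩, rfl⟩))
      · have hin : ∀ i, i ≤ n → i * g ∈ T := fun i hi => by
          rw [hTeq]; exact Finset.mem_insert_of_mem (hall i hi)
        rintro (rfl | rfl | rfl | ⟨i, hi, rfl⟩)
        · exact ⟨0, h0, rfl⟩
        · exact ⟨1 * g, hin 1 (by omega), by simp⟩
        · exact ⟨d, hd, by simp⟩
        · exact ⟨i * g, hin i hi.2, rfl⟩
    rw [hTim]
    have hgs : g ≤ s := by omega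
    by_cases hn1 : n = 1
    · have hU' : U' = {0} := by simp [U', hn1]
      rw [hU']
      refine nice_of (u := 0) (by simp) (by simp) (by simp) (by omega) (by omega) (Or.inl ?_)
      intro h
      have := Nat.le_of_dvd (by omega) h
      rw [hn1] at hn
      omega
    · have h2 := hle 2 (by omega)
      refine nice_of (u := d - 2 * g) (by simp [U']) ?_ ?_ (by omega) (by omega) (Or.inr ⟨0, by simp [U'], ?_⟩)
      · exact Finset.mem_insert_of_mem (Finset.mem_image.mpr ⟨2, Finset.mem_Icc.mpr ⟨le_rfl, by omega⟩, rfl⟩)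
      · intro t ht
        rcases Finset.mem_insert.mp ht with rfl | ht
        · omega
        · obtain ⟨i, hi, rfl⟩ := Finset.mem_image.mp ht
          have : 2 * g ≤ i * g := Nat.mul_le_mul_right _ (Finset.mem_Icc.mp hi).1
          omega
      · simp only [Finset.mem_insert, U', Finset.mem_image, Finset.mem_Icc, not_or, not_exists]
        refine ⟨by omega, by omega, fun i hi => ?_⟩
        have := hle i hi.1.2
        omega

variable (F : Type) [Field F]

/-- coefficients of the remainder -/
noncomputable def Rem (q s : ℕ) (U : Finset ℕ) (i : ℕ) (n : ℕ) : F[X] :=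
  if n < s then (if i = n then 1 else 0)
  else X ^ q ^ (n - s) * ∑ t ∈ (U.filter (· < s)).attach, Rem q s U i (n - s + t.1)
termination_by n
decreasing_by
  have := (Finset.mem_filter.mp t.2).2
  omega

variable {F}

theorem Rem_lt {q s n : ℕ} (U : Finset ℕ) (i : ℕ) (h : n < s) :
    Rem F q s U i n = if i = n then 1 else 0 := by
  rw [Rem, if_pos h]

theorem Rem_ge {q s n : ℕ} {U : Finset ℕ} (hU : ∀ t ∈ U, t < s) (i : ℕ) (h : s ≤ n) :
    Rem F q s U i n = X ^ q ^ (n - s) * ∑ t ∈ U, Rem F q s U i (n - s + t) := by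
  rw [Rem, if_neg (by omega), Finset.sum_attach _ (fun t => Rem F q s U i (n - s + t)),
    Finset.filter_true_of_mem hU]

theorem Rem_deg {q s : ℕ} (hq : 2 ≤ q) {U : Finset ℕ} (hU : ∀ t ∈ U, t < s) (i n : ℕ) :
    (Rem F q s U i n).natDegree < q ^ (n + 1 - s) := by
  induction n using Nat.strong_induction_on with
  | _ n ih =>
    by_cases h : n < s
    · rw [Rem_lt U i h]
      have : 0 < q ^ (n + 1 - s) := by positivity
      split_ifs <;> simpa using this
    · rw [Rem_ge hU i (by omega)]
      have h1 : (∑ t ∈ U, Rem F q s U i (n - s + t)).natDegree ≤ q ^ (n - s) - 1 := by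
        refine natDegree_sum_le_of_forall_le _ _ fun t ht => ?_
        have := hU t ht
        have h2 := ih (n - s + t) (by omega)
        have h3 : q ^ (n - s + t + 1 - s) ≤ q ^ (n - s) := Nat.pow_le_pow_right (by omega) (by omega)
        omega
      refine lt_of_le_of_lt natDegree_mul_le ?_
      rw [natDegree_X_pow, show n + 1 - s = n - s + 1 by omega, pow_succ]
      have : 0 < q ^ (n - s) := by positivity
      nlinarith [Nat.sub_add_cancel this]

theorem Rem_ne {q s : ℕ} (hq : 2 ≤ q) {U : Finset ℕ} (hU : ∀ t ∈ U, t < s) {i n : ℕ}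
    (h : Reach s U n i) : Rem F q s U i n ≠ 0 := by
  classical
  induction h with
  | base n hn => rw [Rem_lt U n hn]; simp
  | step n t i hn ht _ ih =>
    rw [Rem_ge hU i hn]
    refine mul_ne_zero (pow_ne_zero _ X_ne_zero) ?_
    obtain ⟨u, hu, hmax⟩ := Finset.exists_max_image
      (U.filter fun t => Rem F q s U i (n - s + t) ≠ 0) id ⟨t, Finset.mem_filter.mpr ⟨ht, ih⟩⟩
    obtain ⟨huU, hu0⟩ := Finset.mem_filter.mp hu
    rw [← Finset.add_sum_erase _ _ huU]
    intro h0
    have h1 : (∑ x ∈ U.erase u, Rem F q s U i (n - s + x)).degree <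
        (Rem F q s U i (n - s + u)).degree := by
      refine lt_of_le_of_lt (degree_sum_le _ _) ((Finset.sup_lt_iff ?_).mpr fun x hx => ?_)
      · exact bot_lt_iff_ne_bot.mpr (degree_ne_bot.mpr hu0)
      · obtain ⟨hxu, hxU⟩ := Finset.mem_erase.mp hx
        by_cases hx0 : Rem F q s U i (n - s + x) = 0
        · rw [hx0, degree_zero]
          exact bot_lt_iff_ne_bot.mpr (degree_ne_bot.mpr hu0)
        · have h2 : x < u := lt_of_le_of_ne (hmax x (Finset.mem_filter.mpr ⟨hxU, hx0⟩)) hxu
          apply degree_lt_degree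
          by_cases h3 : n - s + u < s
          · exfalso
            rw [Rem_lt U i h3] at hu0
            rw [Rem_lt U i (by omega)] at hx0
            split_ifs at hu0 hx0 <;> first | omega | contradiction
          · have h4 := Rem_deg (F := F) hq hU i (n - s + x)
            have h5 : q ^ (n - s + x + 1 - s) ≤ q ^ (n - s + u - s) :=
              Nat.pow_le_pow_right (by omega) (by omega)
            have h6 : q ^ (n - s + u - s) ≤ (Rem F q s U i (n - s + u)).natDegree := by
              rw [← natDegree_X_pow (R := F) (q ^ (n - s + u - s))]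
              refine natDegree_le_of_dvd ?_ hu0
              rw [Rem_ge hU i (by omega)]
              exact dvd_mul_right _ _
            omega
    rw [eq_neg_of_add_eq_zero_left h0, degree_neg] at h1
    exact lt_irrefl _ h1

theorem Rem_spec (p : ℕ) [Fact p.Prime] [CharP F p] (e s : ℕ) {U : Finset ℕ}
    (hU : ∀ t ∈ U, t < s) (c y : F) (hy : y ^ (p ^ e) ^ s = c * ∑ t ∈ U, y ^ (p ^ e) ^ t) (n : ℕ) :
    y ^ (p ^ e) ^ n =
      ∑ i ∈ Finset.range s, (Rem F (p ^ e) s U i n).eval c * y ^ (p ^ e) ^ i := by
  induction n using Nat.strong_induction_on with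
  | _ n ih =>
    by_cases h : n < s
    · rw [Finset.sum_eq_single n]
      · simp [Rem_lt U n h]
      · intro b _ hb
        simp [Rem_lt U b h, hb]
      · intro hn; exact absurd (Finset.mem_range.mpr h) hn
    · have h1 : (p ^ e) ^ n = (p ^ e) ^ s * p ^ (e * (n - s)) := by
        rw [pow_mul, ← pow_add]; congr 1; omega
      rw [h1, pow_mul, hy, mul_pow, sum_pow_char_pow]
      simp_rw [Rem_ge hU _ (not_lt.mp h), eval_mul, eval_pow, eval_X, eval_finsetSum, mul_assoc,
        Finset.sum_mul]
      rw [← Finset.mul_sum, pow_mul p, Finset.sum_comm]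
      congr 1
      refine Finset.sum_congr rfl fun t ht => ?_
      have := hU t ht
      rw [← ih (n - s + t) (by omega), ← pow_mul, ← pow_add, add_comm]

end Pool.Agent.H101Z.MRD
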