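import Pool.Agent.H101Z.MRD.Comb

set_option autoImplicit false

namespace Pool.Agent.H101Z.MRD

open Polynomial Module Matrix

variable {F : Type} [Field F]

theorem exists_det_ne {J Z : Type} [Fintype J] [DecidableEq J] (v : Z → J → F)
    (h : ∀ l : J → F, (∀ z, ∑ t, l t * v z t = 0) → l = 0) :
    ∃ α : J → Z, (Matrix.of fun j t => v (α j) t).det ≠ 0 := by
  have hsp : Submodule.span F (Set.range v) = ⊤ := by
    by_contra hne
    obtain ⟨f, hf0, hf⟩ := Submodule.exists_le_ker_of_lt_top _ (lt_top_iff_ne_top.mpr hne)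
    apply hf0
    have h1 := h (fun t => f (fun j => if t = j then 1 else 0)) fun z => by
      have h2 : f (v z) = 0 := hf (Submodule.subset_span ⟨z, rfl⟩)
      rw [LinearMap.pi_apply_eq_sum_univ] at h2
      simpa [mul_comm] using h2
    refine LinearMap.ext fun x => ?_
    rw [LinearMap.pi_apply_eq_sum_univ]
    refine Finset.sum_eq_zero fun t _ => ?_
    have : f (fun j => if t = j then 1 else 0) = 0 := congrFun h1 t
    rw [this, smul_zero]
  obtain ⟨κ, a, -, hs, hli⟩ := exists_linearIndependent' F v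
  let b : Basis κ F (J → F) := Basis.mk hli (by rw [hs, hsp])
  let ε : J ≃ κ := (Pi.basisFun F J).indexEquiv b
  refine ⟨a ∘ ε, ?_⟩
  have h3 : LinearIndependent F (Matrix.of fun j t => v ((a ∘ ε) j) t).row :=
    hli.comp ε ε.injective
  exact ((Matrix.isUnit_iff_isUnit_det _).mp (Matrix.linearIndependent_rows_iff_isUnit.mp h3)).ne_zero

theorem derivative_pow_q {R : Type} [CommRing R] (p : ℕ) [Fact p.Prime] [CharP R p] {e t : ℕ}
    (he : 0 < e) (ht : 0 < t) (f : R[X]) : derivative (f ^ (p ^ e) ^ t) = 0 := by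
  have : (((p ^ e) ^ t : ℕ) : R) = 0 := by
    rw [Nat.cast_pow, Nat.cast_pow, CharP.cast_eq_zero, zero_pow he.ne', zero_pow ht.ne']
  rw [derivative_pow, this, C_0, zero_mul, zero_mul]

theorem exists_special [IsAlgClosed F] (p : ℕ) [hp : Fact p.Prime] [CharP F p] {e : ℕ} (he : 0 < e)
    {U : Finset ℕ} {s d i₀ : ℕ} (h0 : 0 ∈ U) (hU : ∀ t ∈ U, t < s) (hsd : s < d) (hi : i₀ < s)
    (hiU : i₀ ∉ U) (hr : Reach s U d i₀) :
    ∃ (c : F) (α : ↥(insert d U) → F), c ≠ 0 ∧
      (∀ j, α j ^ (p ^ e) ^ s = c * ∑ t ∈ U, α j ^ (p ^ e) ^ t) ∧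
      (Matrix.of fun j t : ↥(insert d U) => α j ^ (p ^ e) ^ t.1).det ≠ 0 := by
  classical
  have hq : 2 ≤ p ^ e := Nat.one_lt_pow he.ne' hp.out.one_lt
  obtain ⟨c, hc⟩ : ∃ c : F, (X * Rem F (p ^ e) s U i₀ d).eval c ≠ 0 := by
    by_contra hcon
    push Not at hcon
    exact mul_ne_zero X_ne_zero (Rem_ne (F := F) hq hU hr)
      (Polynomial.funext fun r => by rw [hcon, eval_zero])
  rw [eval_mul, eval_X, mul_ne_zero_iff] at hc
  have hs0 : 0 < s := hU 0 h0
  have hdU : d ∉ U := fun h => by have := hU d h; omega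
  let P : F[X] := X ^ (p ^ e) ^ s - C c * ∑ t ∈ U, X ^ (p ^ e) ^ t
  have hlt : ∀ i, i < s → (p ^ e) ^ i < (p ^ e) ^ s := fun i hi => Nat.pow_lt_pow_right hq hi
  have hPdeg : P.natDegree = (p ^ e) ^ s := by
    have h1 : (C c * ∑ t ∈ U, X ^ (p ^ e) ^ t : F[X]).natDegree < (p ^ e) ^ s := by
      refine lt_of_le_of_lt (natDegree_C_mul_le _ _) (lt_of_le_of_lt
        (natDegree_sum_le_of_forall_le (n := (p ^ e) ^ s - 1) _ _ fun t ht => ?_) ?_)
      · rw [natDegree_X_pow]
        have := hlt t (hU t ht)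
        omega
      · have := hlt 0 hs0
        omega
    rw [natDegree_sub_eq_left_of_natDegree_lt (by rwa [natDegree_X_pow]), natDegree_X_pow]
  have hPder : derivative P = C (-c) := by
    rw [derivative_sub, derivative_pow_q p he hs0, derivative_C_mul, derivative_sum,
      Finset.sum_eq_single 0 (fun t _ ht => derivative_pow_q p he (Nat.pos_of_ne_zero ht) X)
        (fun h => absurd h0 h)]
    simp
  have hsep : P.Separable := by
    rw [separable_def, hPder]
    exact ⟨0, C (-c)⁻¹, by rw [zero_mul, zero_add, ← C_mul, inv_mul_cancel₀ (neg_ne_zero.mpr hc.1), C_1]⟩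
  have hcard : P.roots.toFinset.card = (p ^ e) ^ s := by
    rw [Multiset.toFinset_card_of_nodup (nodup_roots hsep),
      ← (IsAlgClosed.splits _).natDegree_eq_card_roots, hPdeg]
  have hroot : ∀ y ∈ P.roots.toFinset, y ^ (p ^ e) ^ s = c * ∑ t ∈ U, y ^ (p ^ e) ^ t := by
    intro y hy
    have := (mem_roots'.mp (Multiset.mem_toFinset.mp hy)).2
    simpa [P, sub_eq_zero, eval_finsetSum] using this
  obtain ⟨α, hα⟩ := exists_det_ne (J := ↥(insert d U)) (Z := P.roots.toFinset)
    (fun z t => z.1 ^ (p ^ e) ^ t.1) fun l hl => by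
    let l' : ℕ → F := fun t => if h : t ∈ insert d U then l ⟨t, h⟩ else 0
    let μ : ℕ → F := fun i => l' d * (Rem F (p ^ e) s U i d).eval c + if i ∈ U then l' i else 0
    have h1 : (∑ i ∈ Finset.range s, monomial ((p ^ e) ^ i) (μ i) : F[X]) = 0 := by
      refine eq_zero_of_natDegree_lt_card_of_eval_eq_zero' _ P.roots.toFinset (fun y hy => ?_) ?_
      · have h2 := hl ⟨y, hy⟩
        have h3 : ∑ t : ↥(insert d U), l t * y ^ (p ^ e) ^ t.1 =
            ∑ t ∈ insert d U, l' t * y ^ (p ^ e) ^ t := by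
          rw [← Finset.sum_coe_sort (insert d U)]
          refine Finset.sum_congr rfl fun t _ => ?_
          simp only [l', dif_pos t.2]
        rw [h3, Finset.sum_insert hdU, Rem_spec p e s hU c y (hroot y hy) d] at h2
        rw [← h2, eval_finsetSum, Finset.mul_sum]
        simp only [eval_monomial, μ, add_mul, Finset.sum_add_distrib, mul_assoc, ite_mul, zero_mul]
        congr 1
        rw [← Finset.sum_filter]
        refine Finset.sum_congr ?_ fun _ _ => rfl
        ext i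
        simp only [Finset.mem_filter, Finset.mem_range]
        exact ⟨fun h => h.2, fun h => ⟨hU i h, h⟩⟩
      · rw [hcard]
        refine lt_of_le_of_lt
          (natDegree_sum_le_of_forall_le (n := (p ^ e) ^ s - 1) _ _ fun t ht => ?_) ?_
        · have := hlt t (Finset.mem_range.mp ht)
          exact (natDegree_monomial_le _).trans (by omega)
        · have := hlt 0 hs0
          omega
    have h4 : ∀ i, i < s → μ i = 0 := fun i hi => by
      have h5 := congrArg (fun f : F[X] => f.coeff ((p ^ e) ^ i)) h1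
      simp only [finsetSum_coeff, coeff_monomial, coeff_zero] at h5
      rwa [Finset.sum_eq_single i (fun b _ hb => if_neg fun h => hb (Nat.pow_right_injective hq h))
        (fun h => absurd (Finset.mem_range.mpr hi) h), if_pos rfl] at h5
    have h6 : l' d = 0 := by
      have := h4 i₀ hi
      simp only [μ, if_neg hiU, add_zero] at this
      exact (mul_eq_zero.mp this).resolve_right hc.2
    funext t
    have h7 : l t = l' t.1 := by simp only [l', dif_pos t.2]
    rw [h7]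
    rcases Finset.mem_insert.mp t.2 with h | h
    · rw [h, h6]; rfl
    · have := h4 t.1 (hU _ h)
      simp only [μ, h6, if_pos h, zero_mul, zero_add] at this
      rw [this]; rfl
  exact ⟨c, fun j => (α j).1, hc.1, fun j => hroot _ (α j).2, hα⟩

theorem exists_prim {K : Type} [Field K] [PerfectField K] [Algebra K F] [Algebra.IsAlgebraic K F]
    {J : Type} [Finite J] (α : J → F) : ∃ (ξ : F) (β : J → K[X]) (m : K[X]),
      (∀ j, aeval ξ (β j) = α j) ∧ aeval ξ m = 0 ∧ aeval ξ (derivative m) ≠ 0 := by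
  let E := IntermediateField.adjoin K (Set.range α)
  have : FiniteDimensional K E :=
    IntermediateField.finiteDimensional_adjoin fun x _ => Algebra.IsIntegral.isIntegral x
  obtain ⟨ξ, hξ⟩ := Field.exists_primitive_element K E
  have h1 : ∀ j, ∃ β : K[X], aeval (ξ : F) β = α j := fun j => by
    have h2 : (⟨α j, IntermediateField.subset_adjoin _ _ ⟨j, rfl⟩⟩ : E) ∈
        (IntermediateField.adjoin K {ξ}).toSubalgebra := by
      rw [hξ]; trivial
    rw [IntermediateField.adjoin_simple_toSubalgebra_of_isAlgebraic (IsAlgebraic.of_finite K ξ),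
      Algebra.adjoin_singleton_eq_range_aeval] at h2
    obtain ⟨β, hβ⟩ := h2
    refine ⟨β, ?_⟩
    have h3 := aeval_algHom_apply E.val ξ β
    have h4 : aeval ξ β = (⟨α j, IntermediateField.subset_adjoin _ _ ⟨j, rfl⟩⟩ : E) := hβ
    rw [h4] at h3
    exact h3
  choose β hβ using h1
  exact ⟨ξ, β, minpoly K (ξ : F), hβ, minpoly.aeval _ _,
    (Algebra.IsSeparable.isSeparable K (ξ : F)).aeval_derivative_ne_zero (minpoly.aeval _ _)⟩

theorem family_aux (p : ℕ) [hp : Fact p.Prime] [Algebra (ZMod p) F] {e : ℕ} (he : 0 < e)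
    {U : Finset ℕ} {s d : ℕ} (h0 : 0 ∈ U) (hU : ∀ t ∈ U, t < s) (hsd : s < d)
    (c : F) (α : ↥(insert d U) → F)
    (hα : ∀ j, α j ^ (p ^ e) ^ s = c * ∑ t ∈ U, α j ^ (p ^ e) ^ t)
    (M₀ : Matrix ↥(insert d U) ↥(insert d U) F)
    (hM₀ : M₀ = Matrix.of fun j t : ↥(insert d U) => α j ^ (p ^ e) ^ t.1) (hdet : M₀.det ≠ 0)
    (ξ : F) (γ : ↥(insert d U) → (ZMod p)[X]) (hγ : ∀ j, aeval ξ (γ j) = α j) :
    ∃ a : ℕ → (ZMod p)[X], (∀ j, ∑ t ∈ insert d (insert s U), a t * γ j ^ (p ^ e) ^ t = 0) ∧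
      aeval ξ (a d) = 0 ∧ aeval ξ (a 0) = M₀.det * c ∧
      a s = -(Matrix.of fun j t : ↥(insert d U) => γ j ^ (p ^ e) ^ t.1).det ∧
      aeval ξ (derivative (a d)) = -(M₀.det * c) *
        ∑ j, M₀⁻¹ ⟨d, Finset.mem_insert_self _ _⟩ j * aeval ξ (derivative (γ j)) := by
  classical
  have hs0 : 0 < s := hU 0 h0
  have hdU : d ∉ U := fun h => by have := hU d h; omega
  have hsU : s ∉ insert d U := fun h => by
    rcases Finset.mem_insert.mp h with h | h
    · omega
    · exact lt_irrefl _ (hU s h)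
  let M : Matrix ↥(insert d U) ↥(insert d U) (ZMod p)[X] :=
    Matrix.of fun j t : ↥(insert d U) => γ j ^ (p ^ e) ^ t.1
  let cr := cramer M fun j => γ j ^ (p ^ e) ^ s
  let dd : ↥(insert d U) := ⟨d, Finset.mem_insert_self _ _⟩
  let z : ↥(insert d U) := ⟨0, Finset.mem_insert_of_mem h0⟩
  have hid : ∀ j, ∑ t : ↥(insert d U), γ j ^ (p ^ e) ^ t.1 * cr t = M.det * γ j ^ (p ^ e) ^ s :=
    fun j => congrFun (mulVec_cramer M fun j => γ j ^ (p ^ e) ^ s) j
  have hdet0 : aeval ξ M.det = M₀.det := by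
    rw [AlgHom.map_det, hM₀]
    congr 1
    ext j t
    simp [M, hγ]
  let w : ↥(insert d U) → F := fun t => if t.1 = d then 0 else c
  have hw : ∀ j, (M₀ *ᵥ w) j = α j ^ (p ^ e) ^ s := fun j => by
    have : (M₀ *ᵥ w) j = ∑ t ∈ insert d U, α j ^ (p ^ e) ^ t * if t = d then 0 else c := by
      rw [← Finset.sum_coe_sort (insert d U), hM₀]
      rfl
    rw [this, Finset.sum_insert hdU, if_pos rfl, mul_zero, zero_add, hα, Finset.mul_sum]
    refine Finset.sum_congr rfl fun t ht => ?_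
    rw [if_neg (fun h : t = d => hdU (h ▸ ht)), mul_comm]
  have hmv : ∀ (f : ↥(insert d U) → (ZMod p)[X]) (j : ↥(insert d U)),
      aeval ξ (∑ t : ↥(insert d U), γ j ^ (p ^ e) ^ t.1 * f t) = (M₀ *ᵥ fun t => aeval ξ (f t)) j := by
    intro f j
    rw [map_sum, hM₀]
    refine Finset.sum_congr rfl fun t _ => ?_
    rw [map_mul, map_pow, hγ]
    rfl
  have hcr : (fun t => aeval ξ (cr t)) = M₀.det • w := by
    rw [← sub_eq_zero]
    refine Matrix.eq_zero_of_mulVec_eq_zero hdet ?_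
    funext j
    rw [mulVec_sub, mulVec_smul, Pi.sub_apply, ← hmv, hid, Pi.smul_apply, hw, map_mul, hdet0,
      map_pow, hγ, smul_eq_mul, sub_self, Pi.zero_apply]
  have hz : aeval ξ (cr z) = M₀.det * c := by
    have : aeval ξ (cr z) = M₀.det * if 0 = d then 0 else c := congrFun hcr z
    rwa [if_neg (by omega)] at this
  have hder : M₀ *ᵥ ((fun t => aeval ξ (derivative (cr t))) - aeval ξ (derivative M.det) • w) =
      fun j => -(M₀.det * c) * aeval ξ (derivative (γ j)) := by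
    funext j
    have h1 := congrArg derivative (hid j)
    rw [derivative_mul, derivative_pow_q p he hs0, mul_zero, add_zero, derivative_sum] at h1
    simp_rw [derivative_mul] at h1
    rw [Finset.sum_add_distrib, Finset.sum_eq_single z (fun t _ ht => by
      rw [derivative_pow_q p he (Nat.pos_of_ne_zero fun h => ht (Subtype.ext h)), zero_mul])
      (fun h => absurd (Finset.mem_univ _) h)] at h1
    have h2 := congrArg (aeval ξ) h1
    rw [map_add, hmv, map_mul, map_mul, hz, map_pow (aeval ξ), hγ, ← hw] at h2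
    simp only [z, pow_zero, pow_one] at h2
    rw [mulVec_sub, mulVec_smul, Pi.sub_apply, Pi.smul_apply, smul_eq_mul, ← h2]
    ring
  obtain ⟨a, ha, has⟩ : ∃ a : ℕ → (ZMod p)[X], (∀ t : ↥(insert d U), a t.1 = cr t) ∧
      a s = -M.det :=
    ⟨fun t => if h : t ∈ insert d U then cr ⟨t, h⟩ else -M.det, fun t => dif_pos t.2, dif_neg hsU⟩
  refine ⟨a, fun j => ?_, ?_, ?_, has, ?_⟩
  · rw [Finset.insert_comm, Finset.sum_insert hsU, has, ← Finset.sum_coe_sort (insert d U),
      neg_mul, ← hid, neg_add_eq_zero]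
    refine Finset.sum_congr rfl fun t _ => ?_
    rw [ha, mul_comm]
  · have : aeval ξ (cr dd) = M₀.det * if d = d then 0 else c := congrFun hcr dd
    rwa [if_pos rfl, mul_zero, ← ha] at this
  · rwa [← ha] at hz
  · have h1 : (M₀⁻¹ *ᵥ (M₀ *ᵥ ((fun t => aeval ξ (derivative (cr t))) -
        aeval ξ (derivative M.det) • w))) dd =
        ∑ j, M₀⁻¹ dd j * (-(M₀.det * c) * aeval ξ (derivative (γ j))) := by
      rw [hder]
      rfl
    have h2 : w dd = 0 := if_pos rfl
    rw [mulVec_mulVec, Matrix.nonsing_inv_mul _ hdet.isUnit, one_mulVec, Pi.sub_apply,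
      Pi.smul_apply, h2, smul_zero, sub_zero, ← ha] at h1
    rw [h1, Finset.mul_sum]
    refine Finset.sum_congr rfl fun j _ => ?_
    ring

theorem family [IsAlgClosed F] (p : ℕ) [hp : Fact p.Prime] [CharP F p] [Algebra (ZMod p) F]
    [Algebra.IsAlgebraic (ZMod p) F] {e : ℕ} (he : 0 < e)
    {U : Finset ℕ} {s d i₀ : ℕ} (h0 : 0 ∈ U) (hU : ∀ t ∈ U, t < s) (hsd : s < d) (hi : i₀ < s)
    (hiU : i₀ ∉ U) (hr : Reach s U d i₀) :
    ∃ (ξ : F) (γ : ↥(insert d U) → (ZMod p)[X]) (a : ℕ → (ZMod p)[X]),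
      (∀ j, ∑ t ∈ insert d (insert s U), a t * γ j ^ (p ^ e) ^ t = 0) ∧
      aeval ξ (a d) = 0 ∧ aeval ξ (a 0) ≠ 0 ∧
      a s = -(Matrix.of fun j t : ↥(insert d U) => γ j ^ (p ^ e) ^ t.1).det ∧ a s ≠ 0 ∧
      aeval ξ (derivative (a d)) ≠ 0 := by
  classical
  obtain ⟨c, α, hc, hα, hdet⟩ := exists_special (F := F) p he h0 hU hsd hi hiU hr
  obtain ⟨ξ, β, m, hβ, hm, hm'⟩ := exists_prim (K := ZMod p) α
  obtain ⟨M₀, hM₀⟩ : ∃ M₀, M₀ = Matrix.of fun j t : ↥(insert d U) => α j ^ (p ^ e) ^ t.1 := ⟨_, rfl⟩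
  rw [← hM₀] at hdet
  let dd : ↥(insert d U) := ⟨d, Finset.mem_insert_self _ _⟩
  obtain ⟨γ, hγ, hγ'⟩ : ∃ γ : ↥(insert d U) → (ZMod p)[X], (∀ j, aeval ξ (γ j) = α j) ∧
      ∑ j, M₀⁻¹ dd j * aeval ξ (derivative (γ j)) ≠ 0 := by
    by_cases h : ∑ j, M₀⁻¹ dd j * aeval ξ (derivative (β j)) = 0
    · obtain ⟨j₀, hj₀⟩ : ∃ j₀, M₀⁻¹ dd j₀ ≠ 0 := by
        by_contra hcon
        push Not at hcon
        have h1 := congrFun (congrFun (Matrix.nonsing_inv_mul _ hdet.isUnit) dd) dd
        simp [Matrix.mul_apply, hcon] at h1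
      refine ⟨fun j => β j + if j = j₀ then m else 0, fun j => ?_, ?_⟩
      · rw [map_add, hβ]
        split_ifs
        · rw [hm, add_zero]
        · rw [map_zero, add_zero]
      · simp_rw [derivative_add, map_add, mul_add]
        rw [Finset.sum_add_distrib, h, zero_add, Finset.sum_eq_single j₀ (fun j _ hj => by
          simp [hj]) (fun h => absurd (Finset.mem_univ _) h), if_pos rfl]
        exact mul_ne_zero hj₀ hm'
    · exact ⟨β, hβ, h⟩
  obtain ⟨a, h1, h2, h3, h4, h5⟩ := family_aux p he h0 hU hsd c α hα M₀ hM₀ hdet ξ γ hγ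
  refine ⟨ξ, γ, a, h1, h2, by rw [h3]; exact mul_ne_zero hdet hc, h4, fun h => hdet ?_, ?_⟩
  · rw [h4, neg_eq_zero] at h
    have h6 := congrArg (aeval ξ) h
    rw [map_zero, AlgHom.map_det] at h6
    rw [← h6, hM₀]
    congr 1
    ext j t
    simp [hγ]
  · rw [h5]
    exact mul_ne_zero (neg_ne_zero.mpr (mul_ne_zero hdet hc)) hγ'

end Pool.Agent.H101Z.MRD
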