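import Mathlib

set_option autoImplicit false

namespace Pool.Agent.H101Z.MRD

open Polynomial Module

/-- some nonzero linearized polynomial with exponent set `T` has a large kernel -/
def Good (L : Type) [Field L] (q : ℕ) (T : Finset ℕ) : Prop :=
  ∃ a : ℕ → L, (∃ i ∈ T, a i ≠ 0) ∧
    q ^ (T.card - 1) < Nat.card {x : L // ∑ i ∈ T, a i * x ^ (q ^ i) = 0}

variable {L : Type} [Field L]

theorem pow_bij (p : ℕ) [Fact p.Prime] [CharP L p] [Finite L] (k : ℕ) :
    Function.Bijective (fun x : L => x ^ p ^ k) :=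
  Finite.injective_iff_bijective.mp (iterateFrobenius L p k).injective

theorem good_shift (p : ℕ) [Fact p.Prime] [CharP L p] [Finite L] (e : ℕ) (T : Finset ℕ) (t₀ : ℕ)
    (h : ∀ t ∈ T, t₀ ≤ t) (hg : Good L (p ^ e) (T.image fun t => t - t₀)) : Good L (p ^ e) T := by
  obtain ⟨b, ⟨i, hi, hb⟩, hc⟩ := hg
  have hinj : Set.InjOn (fun t => t - t₀) (T : Set ℕ) := fun x hx y hy hxy => by
    have h1 := h x hx
    have h2 := h y hy
    simp only at hxy
    omega
  obtain ⟨j, hj, rfl⟩ := Finset.mem_image.mp hi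
  refine ⟨fun i => b (i - t₀), ⟨j, hj, hb⟩, ?_⟩
  rw [Finset.card_image_of_injOn hinj] at hc
  refine hc.trans_eq (Nat.card_congr ?_).symm
  refine (Equiv.ofBijective _ (pow_bij (L := L) p (e * t₀))).subtypeEquiv fun x => ?_
  rw [Finset.sum_image hinj, Equiv.ofBijective_apply]
  refine Eq.congr_left (Finset.sum_congr rfl fun t ht => ?_)
  rw [← pow_mul x, pow_mul p e t₀, ← pow_add, Nat.add_sub_cancel' (h t ht)]

theorem trace_pow (p : ℕ) [Fact p.Prime] [Algebra (ZMod p) L] [Finite L] (k : ℕ) (z : L) :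
    Algebra.trace (ZMod p) L (z ^ p ^ k) = Algebra.trace (ZMod p) L z := by
  induction k with
  | zero => simp
  | succ k ih =>
    rw [pow_succ, pow_mul, ← ih]
    have := Algebra.trace_eq_of_algEquiv (FiniteField.frobeniusAlgEquivOfAlgebraic (ZMod p) L)
      (z ^ p ^ k)
    rwa [FiniteField.coe_frobeniusAlgEquivOfAlgebraic, ZMod.card] at this

theorem good_rev (p : ℕ) [Fact p.Prime] [CharP L p] [Finite L] (e : ℕ) (T : Finset ℕ) (d : ℕ)
    (h : ∀ t ∈ T, t ≤ d) (hg : Good L (p ^ e) (T.image fun t => d - t)) : Good L (p ^ e) T := by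
  obtain ⟨b, ⟨i, hi, hb⟩, hc⟩ := hg
  have hinj : Set.InjOn (fun t => d - t) (T : Set ℕ) := fun x hx y hy hxy => by
    have h1 := h x hx
    have h2 := h y hy
    simp only at hxy
    omega
  obtain ⟨j, hj, rfl⟩ := Finset.mem_image.mp hi
  refine ⟨fun i => b (d - i) ^ (p ^ e) ^ i, ⟨j, hj, pow_ne_zero _ hb⟩, ?_⟩
  rw [Finset.card_image_of_injOn hinj] at hc
  simp_rw [Finset.sum_image hinj] at hc
  refine hc.trans_le ?_
  let := ZMod.algebra L p
  let A : L →+ L :=
    { toFun := fun x => ∑ i ∈ T, b (d - i) * x ^ (p ^ e) ^ (d - i)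
      map_zero' := Finset.sum_eq_zero fun i _ => by
        rw [zero_pow (pow_ne_zero _ (pow_ne_zero _ (Fact.out : p.Prime).ne_zero)), mul_zero]
      map_add' := fun x y => by
        rw [← Finset.sum_add_distrib]
        refine Finset.sum_congr rfl fun i _ => ?_
        rw [← pow_mul, add_pow_char_pow, mul_add] }
  let A' : L →ₗ[ZMod p] L := A.toZModLinearMap p
  let W := (Algebra.traceForm (ZMod p) L).orthogonal (LinearMap.range A')
  have h1 : finrank (ZMod p) W = finrank (ZMod p) (LinearMap.ker A') := by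
    rw [LinearMap.BilinForm.finrank_orthogonal (traceForm_nondegenerate (ZMod p) L)]
    have := LinearMap.finrank_range_add_finrank_ker A'
    omega
  have h2 : Nat.card {x : L // ∑ i ∈ T, b (d - i) * x ^ (p ^ e) ^ (d - i) = 0} = Nat.card W := by
    rw [Module.natCard_eq_pow_finrank (K := ZMod p) (V := W), h1,
      ← Module.natCard_eq_pow_finrank (K := ZMod p)]
    rfl
  rw [h2]
  have h3 : ∀ y ∈ W, ∑ i ∈ T, b (d - i) ^ (p ^ e) ^ i * y ^ (p ^ e) ^ i = 0 := by
    intro y hy
    refine (traceForm_nondegenerate (ZMod p) L).1 _ fun z => ?_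
    obtain ⟨x, rfl⟩ := (pow_bij (L := L) p (e * d)).2 z
    have h4 : Algebra.trace (ZMod p) L ((∑ i ∈ T, b (d - i) * x ^ (p ^ e) ^ (d - i)) * y) = 0 :=
      hy (A' x) ⟨x, rfl⟩
    rw [Algebra.traceForm_apply, ← h4, Finset.sum_mul, Finset.sum_mul, map_sum, map_sum]
    refine Finset.sum_congr rfl fun i hi => ?_
    rw [← trace_pow p (e * i) (b (d - i) * x ^ (p ^ e) ^ (d - i) * y), pow_mul p, pow_mul p,
      mul_pow, mul_pow, ← pow_mul x, ← pow_add, Nat.sub_add_cancel (h i hi)]
    congr 1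
    ring
  exact Nat.card_le_card_of_injective (fun y => ⟨y.1, h3 y.1 y.2⟩) fun y z hyz =>
    Subtype.ext (by simpa using hyz)

theorem good_of_closure {F : Type} [Field F] [IsAlgClosed F] (p : ℕ) [hp : Fact p.Prime]
    [Algebra (ZMod p) F] (q m : ℕ) (hm : m ≠ 0) (T : Finset ℕ) (A : ℕ → F)
    (hA : ∀ t ∈ T, A t ^ p ^ m = A t) (hA0 : ∃ t ∈ T, A t ≠ 0) (S : Finset F)
    (hS : ∀ y ∈ S, y ^ p ^ m = y ∧ ∑ t ∈ T, A t * y ^ q ^ t = 0) (hc : q ^ (T.card - 1) < S.card) :
    Good (GaloisField p m) q T := by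
  classical
  let φ : GaloisField p m →ₐ[ZMod p] F := IsAlgClosed.lift
  have hinj : Function.Injective φ := φ.toRingHom.injective
  let := Fintype.ofFinite (GaloisField p m)
  have hcard : Fintype.card (GaloisField p m) = p ^ m := by
    rw [← GaloisField.card p m hm, Nat.card_eq_fintype_card]
  have hsurj : ∀ x : F, x ^ p ^ m = x → ∃ y, φ y = x := by
    intro x hx
    by_contra hcon
    have h1 : x ∉ Finset.univ.image φ := fun h => by
      obtain ⟨y, -, hy⟩ := Finset.mem_image.mp h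
      exact hcon ⟨y, hy⟩
    have h2 : (insert x (Finset.univ.image φ)).val ⊆ (X ^ p ^ m - X : F[X]).roots := by
      intro z hz
      rw [mem_roots (FiniteField.X_pow_card_pow_sub_X_ne_zero F hm hp.out.one_lt)]
      rcases Finset.mem_insert.mp hz with rfl | hz
      · simp [hx]
      · obtain ⟨y, -, rfl⟩ := Finset.mem_image.mp hz
        have : φ y ^ p ^ m = φ y := by rw [← map_pow, ← hcard, FiniteField.pow_card]
        simp [this]
    have h3 := card_le_degree_of_subset_roots h2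
    rw [Finset.card_insert_of_notMem h1, Finset.card_image_of_injective _ hinj, Finset.card_univ,
      hcard, FiniteField.X_pow_card_pow_sub_X_natDegree_eq F hm hp.out.one_lt] at h3
    omega
  have h4 : ∀ t, ∃ y, t ∈ T → φ y = A t := fun t => by
    by_cases ht : t ∈ T
    · obtain ⟨y, hy⟩ := hsurj _ (hA t ht)
      exact ⟨y, fun _ => hy⟩
    · exact ⟨0, fun h => absurd h ht⟩
  choose a ha using h4
  obtain ⟨t, ht, ht0⟩ := hA0
  refine ⟨a, ⟨t, ht, fun h => ht0 (by rw [← ha t ht, h, map_zero])⟩, hc.trans_le ?_⟩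
  choose ψ hψ using fun y : S => hsurj y.1 (hS y.1 y.2).1
  rw [← Fintype.card_coe, ← Nat.card_eq_fintype_card]
  refine Nat.card_le_card_of_injective (fun y => ⟨ψ y, hinj ?_⟩) fun y z hyz => ?_
  · rw [map_zero, ← (hS y.1 y.2).2, map_sum]
    refine Finset.sum_congr rfl fun t ht => ?_
    rw [map_mul, map_pow, ha t ht, hψ]
  · have : ψ y = ψ z := congrArg Subtype.val hyz
    exact Subtype.ext (by rw [← hψ, ← hψ, this])

end Pool.Agent.H101Z.MRD
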