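import Pool.Agent.H101Z.MRD.Family
import Pool.Agent.H101Z.MRD.Transfer
import Pool.Agent.H101Z.Weil.Points

set_option autoImplicit false

namespace Pool.Agent.H101Z.MRD

open Polynomial Module Matrix

variable {F : Type} [Field F]

theorem exists_big_factor (ξ : F) (g : F[X][X]) (h1 : g.map (evalRingHom ξ) ≠ 0)
    (h2 : ¬ (X - C ξ) ^ 2 ∣ g.leadingCoeff) (h3 : (g.map (evalRingHom ξ)).natDegree < g.natDegree) :
    ∃ P : F[X][X], Irreducible P ∧ P ∣ g ∧
      g.natDegree ≤ P.natDegree + (g.map (evalRingHom ξ)).natDegree := by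
  induction g using WfDvdMonoid.induction_on_irreducible with
  | zero => simp at h3
  | unit u hu =>
    rw [natDegree_eq_zero_of_isUnit hu] at h3
    omega
  | mul a i ha hi ih =>
    rw [Polynomial.map_mul, mul_ne_zero_iff] at h1
    rw [Polynomial.map_mul, natDegree_mul h1.1 h1.2, natDegree_mul hi.ne_zero ha] at h3 ⊢
    rw [leadingCoeff_mul] at h2
    by_cases h : evalRingHom ξ i.leadingCoeff = 0
    · have h4 : evalRingHom ξ a.leadingCoeff ≠ 0 := fun h4 =>
        h2 (by rw [sq]; exact mul_dvd_mul (dvd_iff_isRoot.mpr h) (dvd_iff_isRoot.mpr h4))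
      rw [natDegree_map_of_leadingCoeff_ne_zero _ h4]
      exact ⟨i, hi, dvd_mul_right _ _, by omega⟩
    · rw [natDegree_map_of_leadingCoeff_ne_zero _ h] at h3 ⊢
      obtain ⟨P, hP, hd, hle⟩ := ih h1.2 (fun h4 => h2 (h4.mul_left _)) (by omega)
      exact ⟨P, hP, hd.mul_left _, by omega⟩

theorem aeval_fixed (p : ℕ) [Fact p.Prime] [CharP F p] [Algebra (ZMod p) F] (m : ℕ) (x : F)
    (hx : x ^ p ^ m = x) (f : (ZMod p)[X]) : aeval x f ^ p ^ m = aeval x f := by
  have h1 : (iterateFrobenius F p m).comp (algebraMap (ZMod p) F) = algebraMap (ZMod p) F :=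
    RingHom.ext_zmod _ _
  have h2 := hom_eval₂ f (algebraMap (ZMod p) F) (iterateFrobenius F p m) x
  rwa [h1, iterateFrobenius_def, iterateFrobenius_def, hx] at h2

theorem fixed_pow {q : ℕ} {c : F} (hc : c ^ q = c) (n : ℕ) : c ^ q ^ n = c := by
  induction n with
  | zero => simp
  | succ n ih => rw [pow_succ, pow_mul, ih, hc]

theorem core (p : ℕ) [hp : Fact p.Prime] {e : ℕ} (he : 0 < e) (T : Finset ℕ) (hT : Nice T) :
    ∃ c : ℕ, ∀ n, c < n → Good (GaloisField p (e * n)) (p ^ e) T := by
  classical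
  obtain ⟨U, s, d, i₀, hTe, h0, hU, hsd, hi, hiU, hr⟩ := hT
  let F := AlgebraicClosure (ZMod p)
  obtain ⟨ξ, γ, a, hγ, had, ha0, has, has0, had'⟩ := family (F := F) p he h0 hU hsd hi hiU hr
  rw [← hTe] at hγ
  have hq : 2 ≤ p ^ e := Nat.one_lt_pow he.ne' hp.out.one_lt
  have hs0 : 0 < s := hU 0 h0
  have hdU : d ∉ insert s U := fun h => by
    rcases Finset.mem_insert.mp h with h | h
    · omega
    · have := hU d h; omega
  have hsU : s ∉ insert d U := fun h => by
    rcases Finset.mem_insert.mp h with h | h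
    · omega
    · exact lt_irrefl _ (hU s h)
  have h0T : 0 ∈ T := by rw [hTe]; simp [h0]
  have hsT : s ∈ T := by rw [hTe]; simp
  have hcardT : T.card - 1 = Fintype.card ↥(insert d U) := by
    rw [hTe, Finset.insert_comm, Finset.card_insert_of_notMem hsU, Fintype.card_coe]
    rfl
  let ι : (ZMod p)[X] →+* F[X] := mapRingHom (algebraMap (ZMod p) F)
  have hι : ∀ x f, (ι f).eval x = aeval x f := fun x f => eval_map_algebraMap f x
  have hιinj : Function.Injective ι := map_injective _ (algebraMap (ZMod p) F).injective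
  let g : F[X][X] := ∑ t ∈ T, monomial ((p ^ e) ^ t - 1) (ι (a t))
  have hpos : ∀ t, 1 ≤ (p ^ e) ^ t := fun t => Nat.one_le_pow _ _ (by omega)
  have hXg : X * g = ∑ t ∈ T, C (ι (a t)) * X ^ (p ^ e) ^ t := by
    rw [Finset.mul_sum]
    refine Finset.sum_congr rfl fun t _ => ?_
    rw [X_mul_monomial, Nat.sub_add_cancel (hpos t), C_mul_X_pow_eq_monomial]
  have hder : derivative (X * g) = C (ι (a 0)) := by
    rw [hXg, derivative_sum, Finset.sum_eq_single 0 (fun t _ ht => by
      rw [derivative_C_mul, derivative_pow_q p he (Nat.pos_of_ne_zero ht), mul_zero])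
      (fun h => absurd h0T h)]
    simp
  have hinj : Function.Injective (algebraMap F[X] (RatFunc F)) := IsFractionRing.injective _ _
  have ha0' : ι (a 0) ≠ 0 := fun h => ha0 (by rw [← hι, h, eval_zero])
  have hsep : (g.map (algebraMap F[X] (RatFunc F))).Separable := by
    refine Separable.of_mul_right (f := X) ?_
    have h1 : X * g.map (algebraMap F[X] (RatFunc F)) = (X * g).map (algebraMap F[X] (RatFunc F)) := by
      rw [Polynomial.map_mul, map_X]
    rw [h1, separable_def, derivative_map, hder, map_C]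
    have h2 : algebraMap F[X] (RatFunc F) (ι (a 0)) ≠ 0 := (map_ne_zero_iff _ hinj).mpr ha0'
    exact ⟨0, C (algebraMap F[X] (RatFunc F) (ι (a 0)))⁻¹, by
      rw [zero_mul, zero_add, ← C_mul, inv_mul_cancel₀ h2, C_1]⟩
  have hfrob : ∀ ρ : F →+* F, g.map (mapRingHom ρ) = g := fun ρ => by
    rw [Polynomial.map_sum]
    refine Finset.sum_congr rfl fun t _ => ?_
    rw [Polynomial.map_monomial]
    congr 1
    simp only [ι, coe_mapRingHom, Polynomial.map_map]
    congr 1
    exact RingHom.ext_zmod _ _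
  let g' : F[X][X] := ∑ t ∈ insert s U, monomial ((p ^ e) ^ t - 1) (ι (a t))
  have hg : g = monomial ((p ^ e) ^ d - 1) (ι (a d)) + g' := by
    simp only [g, g', hTe, Finset.sum_insert hdU]
  have hg' : g'.natDegree ≤ (p ^ e) ^ s - 1 := by
    refine natDegree_sum_le_of_forall_le _ _ fun t ht => (natDegree_monomial_le _).trans ?_
    have : (p ^ e) ^ t ≤ (p ^ e) ^ s := by
      refine Nat.pow_le_pow_right (by omega) ?_
      rcases Finset.mem_insert.mp ht with h | h
      · omega
      · exact (hU t h).le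
    omega
  have hsd2 : 2 * (p ^ e) ^ s ≤ (p ^ e) ^ d := by
    have h1 : (p ^ e) ^ (s + 1) ≤ (p ^ e) ^ d := Nat.pow_le_pow_right (by omega) hsd
    have h2 : (p ^ e) ^ s * 2 ≤ (p ^ e) ^ s * p ^ e := Nat.mul_le_mul_left _ hq
    rw [pow_succ] at h1
    omega
  have hs2 : 2 ≤ (p ^ e) ^ s := hq.trans (Nat.le_self_pow hs0.ne' _)
  have had0 : ι (a d) ≠ 0 := fun h => had' (by
    rw [(map_eq_zero_iff _ hιinj).mp h, derivative_zero, map_zero])
  have hlt : g'.natDegree < (monomial ((p ^ e) ^ d - 1) (ι (a d)) : F[X][X]).natDegree := by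
    rw [natDegree_monomial_eq _ had0]
    omega
  have hgdeg : g.natDegree = (p ^ e) ^ d - 1 := by
    rw [hg, natDegree_add_eq_left_of_natDegree_lt hlt, natDegree_monomial_eq _ had0]
  have hglc : g.leadingCoeff = ι (a d) := by
    rw [hg, leadingCoeff_add_of_degree_lt' (degree_lt_degree hlt), leadingCoeff_monomial]
  have hdrop : (g.map (evalRingHom ξ)).natDegree ≤ (p ^ e) ^ s - 1 := by
    rw [hg, Polynomial.map_add, Polynomial.map_monomial, coe_evalRingHom, hι, had, monomial_zero_right,
      zero_add]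
    exact natDegree_map_le.trans hg'
  obtain ⟨P, hP, hPg, hPdeg⟩ := exists_big_factor ξ g (fun h => ha0 (by
      have h1 := congrArg (Polynomial.map (evalRingHom ξ)) hder
      rw [← derivative_map, Polynomial.map_mul, h, mul_zero, derivative_zero, map_C,
        coe_evalRingHom, hι] at h1
      exact C_eq_zero.mp h1.symm))
    (fun h => had' (by
      obtain ⟨r, hr⟩ := h
      rw [hglc] at hr
      have h1 : ι (derivative (a d)) = derivative (ι (a d)) := (derivative_map _ _).symm
      rw [← hι, h1, hr]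
      simp [derivative_mul, sq])) (by omega)
  have hP2 : 2 ≤ P.natDegree := by omega
  have hirr : Irreducible (P.map (algebraMap F[X] (RatFunc F))) :=
    (hP.isPrimitive (by omega)).irreducible_iff_irreducible_map_fraction_map.mp hP
  have hdeg₁ : (P.map (algebraMap F[X] (RatFunc F))).natDegree = P.natDegree :=
    natDegree_map_eq_of_injective hinj _
  obtain ⟨R, hR, hRq⟩ := Weil.exists_fixed_finset (F := F) p e he.ne'
  let r : (↥(insert d U) → F) → F[X] := fun c => ∑ j, C (c j) * ι (γ j)
  let D : F[X][X] := C (ι (a s)) * ∏ c ∈ Fintype.piFinset fun _ => R, (X - C (r c))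
  have hD : ¬ P.map (algebraMap F[X] (RatFunc F)) ∣ D.map (algebraMap F[X] (RatFunc F)) := by
    intro h
    rw [Polynomial.map_mul, Polynomial.map_prod, map_C] at h
    rcases hirr.prime.dvd_or_dvd h with h | h
    · have := natDegree_le_of_dvd h (C_ne_zero.mpr ((map_ne_zero_iff _ hinj).mpr
        ((map_ne_zero_iff _ hιinj).mpr has0)))
      rw [natDegree_C] at this
      omega
    · obtain ⟨c, -, hc⟩ := (hirr.prime.dvd_finsetProd_iff _).mp h
      rw [Polynomial.map_sub, map_X, map_C] at hc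
      have := natDegree_le_of_dvd hc (X_sub_C_ne_zero _)
      rw [natDegree_X_sub_C] at this
      omega
  obtain ⟨m₀, hm₀⟩ := Weil.points p g hsep hfrob _ hirr (Polynomial.map_dvd _ hPg) (by omega) D hD
  refine ⟨m₀, fun n hn => ?_⟩
  obtain ⟨x₀, y₀, hx, hy, hg0, hD0⟩ := hm₀ (e * n) (hn.le.trans (Nat.le_mul_of_pos_left _ he))
  rw [evalEval_mul, evalEval_C, evalEval_prod, mul_ne_zero_iff, hι, Finset.prod_ne_zero_iff] at hD0
  let ψ : (↥(insert d U) → F) → F := fun c => ∑ j, c j * aeval x₀ (γ j)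
  have hψr : ∀ c, (r c).eval x₀ = ψ c := fun c => by
    simp only [r, ψ, eval_finsetSum, eval_mul, eval_C, hι]
  have hψpow : ∀ c ∈ Fintype.piFinset fun _ : ↥(insert d U) => R, ∀ t,
      ψ c ^ (p ^ e) ^ t = ∑ j, c j * aeval x₀ (γ j) ^ (p ^ e) ^ t := fun c hc t => by
    rw [← pow_mul p, sum_pow_char_pow, pow_mul p]
    refine Finset.sum_congr rfl fun j _ => ?_
    rw [mul_pow, fixed_pow (hRq _ (Fintype.mem_piFinset.mp hc j))]
  have hψinj : Set.InjOn ψ (Fintype.piFinset fun _ : ↥(insert d U) => R) := by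
    intro c hc c' hc' h
    have hdet : (Matrix.of fun j t : ↥(insert d U) => aeval x₀ (γ j) ^ (p ^ e) ^ t.1).det ≠ 0 := by
      intro h1
      apply hD0.1
      rw [has, map_neg, AlgHom.map_det, neg_eq_zero, ← h1]
      congr 1
      ext j t
      simp
    rw [← sub_eq_zero]
    refine Matrix.eq_zero_of_vecMul_eq_zero hdet ?_
    funext t
    have h2 := hψpow c hc t.1
    rw [h, hψpow c' hc' t.1] at h2
    rw [sub_vecMul, Pi.sub_apply, Pi.zero_apply, sub_eq_zero]
    exact h2.symm
  refine good_of_closure p (p ^ e) (e * n) (Nat.mul_ne_zero he.ne' (by omega)) T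
    (fun t => aeval x₀ (a t)) (fun t _ => aeval_fixed p _ x₀ hx _) ⟨s, hsT, hD0.1⟩
    (insert y₀ ((Fintype.piFinset fun _ : ↥(insert d U) => R).image ψ)) (fun y hy' => ?_) ?_
  · rcases Finset.mem_insert.mp hy' with rfl | hy'
    · refine ⟨hy, ?_⟩
      have h1 := congrArg (evalEval x₀ y) hXg
      rw [evalEval_mul, hg0, mul_zero, evalEval_finsetSum] at h1
      rw [h1]
      refine Finset.sum_congr rfl fun t _ => ?_
      rw [evalEval_mul, evalEval_C, evalEval_pow, evalEval_X, hι]
    · obtain ⟨c, hc, rfl⟩ := Finset.mem_image.mp hy'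
      constructor
      · rw [pow_mul p, hψpow c hc]
        refine Finset.sum_congr rfl fun j _ => ?_
        rw [← pow_mul p, aeval_fixed p _ x₀ hx]
      · rw [Finset.sum_congr rfl fun t _ => by rw [hψpow c hc t, Finset.mul_sum], Finset.sum_comm]
        refine Finset.sum_eq_zero fun j _ => ?_
        have h1 := congrArg (fun f => c j * aeval x₀ f) (hγ j)
        simp only [map_sum, map_mul, map_pow, map_zero, mul_zero, Finset.mul_sum] at h1
        rw [← h1]
        refine Finset.sum_congr rfl fun t _ => ?_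
        ring
  · rw [Finset.card_insert_of_notMem, Finset.card_image_of_injOn hψinj, Fintype.card_piFinset,
      Finset.prod_const, hR, Finset.card_univ, hcardT]
    · omega
    · intro h
      obtain ⟨c, hc, hc'⟩ := Finset.mem_image.mp h
      apply hD0.2 c hc
      rw [evalEval_sub, evalEval_X, evalEval_C, hψr, hc', sub_self]

theorem main (p : ℕ) [hp : Fact p.Prime] {e : ℕ} (he : 0 < e) (T : Finset ℕ)
    (hT : ¬ ∃ a d : ℕ, T = (Finset.range T.card).image (fun i => a + i * d)) :
    ∃ c : ℕ, ∀ n, c < n → Good (GaloisField p (e * n)) (p ^ e) T := by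
  classical
  have hne : T.Nonempty := by
    rw [Finset.nonempty_iff_ne_empty]
    rintro rfl
    exact hT ⟨0, 0, by simp⟩
  obtain ⟨t₀, ht₀, hmin⟩ := Finset.exists_min_image T id hne
  simp only [id] at hmin
  have hinj : Set.InjOn (fun t => t - t₀) (T : Set ℕ) := fun x hx y hy hxy => by
    have h1 := hmin x hx
    have h2 := hmin y hy
    simp only at hxy
    omega
  have h1 := nice_or (T.image fun t => t - t₀) (Finset.mem_image.mpr ⟨t₀, ht₀, Nat.sub_self _⟩) (by
    rintro ⟨a, d, h⟩
    refine hT ⟨t₀ + a, d, ?_⟩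
    rw [Finset.card_image_of_injOn hinj] at h
    have h2 := congrArg (Finset.image fun t => t₀ + t) h
    rw [Finset.image_image, Finset.image_image] at h2
    have h3 : T.image ((fun t => t₀ + t) ∘ fun t => t - t₀) = T.image id :=
      Finset.image_congr fun t ht => Nat.add_sub_cancel' (hmin t ht)
    rw [h3, Finset.image_id] at h2
    refine h2.trans (Finset.image_congr fun i _ => ?_)
    simp [add_assoc])
  rcases h1 with h | ⟨d, hd, h⟩
  · obtain ⟨c, hc⟩ := core p he _ h
    exact ⟨c, fun n hn => good_shift p e T t₀ hmin (hc n hn)⟩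
  · obtain ⟨c, hc⟩ := core p he _ h
    exact ⟨c, fun n hn => good_shift p e T t₀ hmin (good_rev p e _ d hd (hc n hn))⟩

end Pool.Agent.H101Z.MRD
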